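import Mathlib

/-! # Mixed volumes of convex bodies by polarisation: definitions -/

set_option autoImplicit false

open MeasureTheory Set Multiset
open scoped Pointwise NNReal RealInnerProductSpace

noncomputable section

namespace Pool.Agent.TH650.MV

section
variable {G : Type*} [NormedAddCommGroup G] [NormedSpace ℝ G]

/-- one point -/
def sing (x : G) : ConvexBody G := ⟨{x}, convex_singleton x, isCompact_singleton, singleton_nonempty x⟩

/-- image under a continuous linear map -/
def img {G' : Type*} [NormedAddCommGroup G'] [NormedSpace ℝ G'] (φ : G →L[ℝ] G') (K : ConvexBody G) :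
    ConvexBody G' :=
  ⟨φ '' (K : Set G), K.convex.is_linear_image φ.isLinear, K.isCompact.image φ.continuous, K.nonempty.image _⟩

theorem isCompact_hull_union (K L : ConvexBody G) : IsCompact (convexHull ℝ ((K : Set G) ∪ L)) := by
  have h : convexHull ℝ ((K : Set G) ∪ L) =
      (fun z : ℝ × G × G => (1 - z.1) • z.2.1 + z.1 • z.2.2) '' (Icc (0 : ℝ) 1 ×ˢ (K : Set G) ×ˢ (L : Set G)) := by
    rw [K.convex.convexHull_union L.convex K.nonempty L.nonempty]
    ext z
    rw [mem_convexJoin]
    constructor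
    · rintro ⟨x, hx, y, hy, hz⟩
      rw [segment_eq_image] at hz
      obtain ⟨t, ht, rfl⟩ := hz
      exact ⟨(t, x, y), ⟨ht, hx, hy⟩, rfl⟩
    · rintro ⟨⟨t, x, y⟩, ⟨ht, hx, hy⟩, rfl⟩
      refine ⟨x, hx, y, hy, ?_⟩
      rw [segment_eq_image]
      exact ⟨t, ht, rfl⟩
  rw [h]
  exact (isCompact_Icc.prod (K.isCompact.prod L.isCompact)).image (by fun_prop)

/-- convex hull of the union -/
def hu (K L : ConvexBody G) : ConvexBody G :=
  ⟨convexHull ℝ ((K : Set G) ∪ L), convex_convexHull ℝ _, isCompact_hull_union K L,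
    K.nonempty.mono (subset_union_left.trans (subset_convexHull ℝ _))⟩

/-- the part of `K` where `f ≤ a` -/
def cut (K : ConvexBody G) (f : G →L[ℝ] ℝ) (a : ℝ) (h : ∃ x ∈ K, f x ≤ a) : ConvexBody G :=
  ⟨(K : Set G) ∩ {x | f x ≤ a}, K.convex.inter (convex_halfSpace_le f.isLinear a),
    K.isCompact.inter_right (isClosed_le f.continuous continuous_const), h⟩

/-- support function -/
def sp (K : ConvexBody G) (f : G →L[ℝ] ℝ) : ℝ := sSup (f '' (K : Set G))

/-- being a simplex of full dimension -/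
def IsSimplex (K : ConvexBody G) : Prop :=
  ∃ v : Fin (Module.finrank ℝ G + 1) → G, AffineIndependent ℝ v ∧ (K : Set G) = convexHull ℝ (range v)

variable [MeasurableSpace G]

/-- volume -/
def vl (μ : Measure G) (K : ConvexBody G) : ℝ := (μ (K : Set G)).toReal

/-- iterated difference at `0` -/
def dl (f : ConvexBody G → ℝ) (s : Multiset (ConvexBody G)) : ℝ :=
  (s.powerset.map fun t => (-1 : ℝ) ^ (Multiset.card s - Multiset.card t) * f t.sum).sum

/-- the mixed volume -/
def V (μ : Measure G) (s : Multiset (ConvexBody G)) : ℝ := dl (vl μ) s / (Multiset.card s).factorial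

end

section
variable {G₁ G₂ : Type*} [NormedAddCommGroup G₁] [NormedSpace ℝ G₁] [NormedAddCommGroup G₂] [NormedSpace ℝ G₂]

/-- first factor -/
def j1 (K : ConvexBody G₁) : ConvexBody (G₁ × G₂) := img (ContinuousLinearMap.inl ℝ G₁ G₂) K

/-- second factor -/
def j2 (K : ConvexBody G₂) : ConvexBody (G₁ × G₂) := img (ContinuousLinearMap.inr ℝ G₁ G₂) K

/-- the graph of `ι` over `K` -/
def dg (ι : G₁ →L[ℝ] G₂) (K : ConvexBody G₁) : ConvexBody (G₁ × G₂) :=
  img ((ContinuousLinearMap.id ℝ G₁).prod ι) K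

end

/-- `closedBall c r` is inscribed in `K` and touches the boundary in direction `w` -/
def Tch {E : Type*} [NormedAddCommGroup E] [InnerProductSpace ℝ E] (K : Set E) (c : E) (r : ℝ) (w : E) : Prop :=
  0 < r ∧ ‖w‖ = 1 ∧ Metric.closedBall c r ⊆ K ∧ ∀ y ∈ K, ⟪w, y⟫ ≤ ⟪w, c⟫ + r

end Pool.Agent.TH650.MV
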