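import Mathlib
import Pool.Agent.TH650.MV.Defs

/-! # Iterated differences -/

set_option autoImplicit false

open MeasureTheory Set
open scoped Pointwise NNReal

noncomputable section

namespace Pool.Agent.TH650.MV

section
variable {G : Type*} [NormedAddCommGroup G] [NormedSpace ℝ G]

theorem dl_zero (f : ConvexBody G → ℝ) : dl f 0 = f 0 := by simp [dl]

theorem dl_cons (f : ConvexBody G → ℝ) (a : ConvexBody G) (s : Multiset (ConvexBody G)) :
    dl f (a ::ₘ s) = dl (fun X => f (X + a)) s - dl f s := by
  unfold dl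
  rw [Multiset.powerset_cons, Multiset.map_add, Multiset.sum_add, Multiset.map_map]
  have h1 : (s.powerset.map fun t => (-1 : ℝ) ^ (Multiset.card (a ::ₘ s) - Multiset.card t) * f t.sum).sum =
      - (s.powerset.map fun t => (-1 : ℝ) ^ (Multiset.card s - Multiset.card t) * f t.sum).sum := by
    rw [← Multiset.sum_map_neg]
    refine congrArg _ (Multiset.map_congr rfl fun t ht => ?_)
    have hle := Multiset.card_le_card (Multiset.mem_powerset.mp ht)
    rw [Multiset.card_cons, show Multiset.card s + 1 - Multiset.card t = (Multiset.card s - Multiset.card t) + 1 by omega,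
      pow_succ]
    ring
  have h2 : (s.powerset.map ((fun t => (-1 : ℝ) ^ (Multiset.card (a ::ₘ s) - Multiset.card t) * f t.sum) ∘
      Multiset.cons a)).sum =
      (s.powerset.map fun t => (-1 : ℝ) ^ (Multiset.card s - Multiset.card t) * f (t.sum + a)).sum := by
    refine congrArg _ (Multiset.map_congr rfl fun t ht => ?_)
    simp only [Function.comp, Multiset.card_cons, Multiset.sum_cons, Nat.add_sub_add_right, add_comm a]
  rw [h1, h2]
  ring

theorem dl_finset {T : Type*} [DecidableEq T] (A : T → ConvexBody G) (U : Finset T) (f : ConvexBody G → ℝ) :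
    dl f (U.val.map A) = ∑ R ∈ U.powerset, (-1 : ℝ) ^ (U.card - R.card) * f (∑ τ ∈ R, A τ) := by
  induction U using Finset.induction_on generalizing f with
  | empty => simp [dl_zero]
  | insert a U ha ih =>
    rw [Finset.insert_val_of_notMem ha, Multiset.map_cons, dl_cons, ih, ih, Finset.sum_powerset_insert ha]
    have h1 : ∑ R ∈ U.powerset, (-1 : ℝ) ^ ((insert a U).card - R.card) * f (∑ τ ∈ R, A τ) =
        - ∑ R ∈ U.powerset, (-1 : ℝ) ^ (U.card - R.card) * f (∑ τ ∈ R, A τ) := by
      rw [← Finset.sum_neg_distrib]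
      refine Finset.sum_congr rfl fun R hR => ?_
      have hle := Finset.card_le_card (Finset.mem_powerset.mp hR)
      rw [Finset.card_insert_of_notMem ha, show U.card + 1 - R.card = (U.card - R.card) + 1 by omega, pow_succ]
      ring
    have h2 : ∑ R ∈ U.powerset, (-1 : ℝ) ^ ((insert a U).card - (insert a R).card) * f (∑ τ ∈ insert a R, A τ) =
        ∑ R ∈ U.powerset, (-1 : ℝ) ^ (U.card - R.card) * f (∑ τ ∈ R, A τ + A a) := by
      refine Finset.sum_congr rfl fun R hR => ?_
      have haR : a ∉ R := fun h => ha (Finset.mem_powerset.mp hR h)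
      rw [Finset.card_insert_of_notMem ha, Finset.card_insert_of_notMem haR, Nat.add_sub_add_right,
        Finset.sum_insert haR, add_comm (A a)]
    rw [h1, h2]
    ring

/-- every multiset is an indexed family -/
theorem exists_family {α : Type*} (n : ℕ) (s : Multiset α) (hs : Multiset.card s = n) :
    ∃ A : Fin n → α, s = Finset.univ.val.map A := by
  induction n generalizing s with
  | zero => exact ⟨Fin.elim0, by rw [Multiset.card_eq_zero.mp hs]; rfl⟩
  | succ n ih =>
    obtain ⟨a, t, rfl⟩ := Multiset.card_pos_iff_exists_mem.mp (by omega : 0 < Multiset.card s) |>.imp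
      fun a ha => Multiset.exists_cons_of_mem ha
    obtain ⟨A, hA⟩ := ih t (by simpa using hs)
    refine ⟨Fin.cons a A, ?_⟩
    have h1 : (Finset.univ : Finset (Fin (n + 1))).val = 0 ::ₘ (Finset.univ : Finset (Fin n)).val.map Fin.succ := by
      rw [Fin.univ_succ, Finset.cons_val, Finset.map_val]
      rfl
    rw [h1, Multiset.map_cons, Multiset.map_map, hA]
    rfl

end

/-- the alternating sum of a monomial -/
theorem alt_prod {ι T : Type*} [Fintype ι] [Fintype T] [DecidableEq T] (t : ι → T) (ε : ℝ) :
    ∑ R ∈ (Finset.univ : Finset T).powerset, (-1 : ℝ) ^ (Fintype.card T - R.card) *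
      ∏ a, (ε + if t a ∈ R then 1 else 0) =
      ∏ τ : T, ((ε + 1) ^ (Finset.univ.filter fun a => t a = τ).card - ε ^ (Finset.univ.filter fun a => t a = τ).card) := by
  simp_rw [sub_eq_add_neg]
  rw [Finset.prod_add]
  refine Finset.sum_congr rfl fun R _ => ?_
  have h1 : ∏ a, (ε + if t a ∈ R then 1 else 0) =
      (∏ τ ∈ R, (ε + 1) ^ (Finset.univ.filter fun a => t a = τ).card) *
      ∏ τ ∈ Finset.univ \ R, ε ^ (Finset.univ.filter fun a => t a = τ).card := by
    rw [← Finset.prod_fiberwise (s := Finset.univ) (g := t) (f := fun a => (ε + if t a ∈ R then (1:ℝ) else 0))]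
    rw [← Finset.prod_sdiff (Finset.subset_univ R), mul_comm]
    congr 1
    · refine Finset.prod_congr rfl fun τ hτ => ?_
      rw [Finset.prod_congr rfl (g := fun _ => ε + 1), Finset.prod_const]
      intro a ha
      rw [(Finset.mem_filter.mp ha).2, if_pos hτ]
    · refine Finset.prod_congr rfl fun τ hτ => ?_
      rw [Finset.prod_congr rfl (g := fun _ => ε), Finset.prod_const]
      intro a ha
      rw [(Finset.mem_filter.mp ha).2, if_neg (Finset.mem_sdiff.mp hτ).2, add_zero]
  have h2 : ∏ τ ∈ Finset.univ \ R, -ε ^ (Finset.univ.filter fun a => t a = τ).card =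
      (-1 : ℝ) ^ (Fintype.card T - R.card) * ∏ τ ∈ Finset.univ \ R, ε ^ (Finset.univ.filter fun a => t a = τ).card := by
    rw [Finset.prod_neg, Finset.card_sdiff_of_subset (Finset.subset_univ R), Finset.card_univ]
  rw [h1, h2]
  ring

/-- it vanishes when some index is not used -/
theorem alt_zero {ι T : Type*} [Fintype ι] [Fintype T] [DecidableEq T] (t : ι → T) (ε : ℝ)
    (h : ¬ Function.Surjective t) :
    ∑ R ∈ (Finset.univ : Finset T).powerset, (-1 : ℝ) ^ (Fintype.card T - R.card) *
      ∏ a, (ε + if t a ∈ R then 1 else 0) = 0 := by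
  rw [alt_prod]
  unfold Function.Surjective at h
  push Not at h
  obtain ⟨τ, hτ⟩ := h
  refine Finset.prod_eq_zero (Finset.mem_univ τ) ?_
  have : (Finset.univ.filter fun a => t a = τ) = ∅ := by
    ext a; simp [hτ a]
  rw [this]; simp

/-- and is `1` for a bijection -/
theorem alt_one {ι T : Type*} [Fintype ι] [Fintype T] [DecidableEq T] (t : ι → T) (ε : ℝ)
    (h : Function.Bijective t) :
    ∑ R ∈ (Finset.univ : Finset T).powerset, (-1 : ℝ) ^ (Fintype.card T - R.card) *
      ∏ a, (ε + if t a ∈ R then 1 else 0) = 1 := by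
  rw [alt_prod]
  refine Finset.prod_eq_one fun τ _ => ?_
  obtain ⟨b, hb⟩ := h.2 τ
  have : (Finset.univ.filter fun a => t a = τ) = {b} := by
    ext a
    simp only [Finset.mem_filter, Finset.mem_univ, true_and, Finset.mem_singleton]
    constructor
    · intro ha; exact h.1 (ha.trans hb.symm)
    · rintro rfl; exact hb
  rw [this]; simp

end Pool.Agent.TH650.MV
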