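import Mathlib
import Pool.Agent.TH650.MV.Alt
import Pool.Agent.TH650.GB.Expand

/-! # Iterated differences of the volume for polytopes in `ι → ℝ` -/

set_option autoImplicit false
set_option linter.unusedSectionVars false

open MeasureTheory Set Filter Topology Matrix
open scoped Pointwise NNReal

noncomputable section

namespace Pool.Agent.TH650.MV

open Pool.Agent.TH650.GB

section general
variable {G : Type*} [NormedAddCommGroup G] [NormedSpace ℝ G] [FiniteDimensional ℝ G]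
  [MeasurableSpace G] [BorelSpace G] (μ : Measure G) [μ.IsAddHaarMeasure]

theorem vl_add_sing (A : ConvexBody G) (x : G) : vl μ (A + sing x) = vl μ A := by
  unfold vl
  congr 1
  have h : ((A + sing x : ConvexBody G) : Set G) = x +ᵥ (A : Set G) := by
    rw [ConvexBody.coe_add]
    change (A : Set G) + {x} = _
    rw [add_singleton]
    ext y
    rw [Set.mem_vadd_set, Set.mem_image]
    constructor
    · rintro ⟨z, hz, rfl⟩; exact ⟨z, hz, by rw [vadd_eq_add, add_comm]⟩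
    · rintro ⟨z, hz, rfl⟩; exact ⟨z, hz, by rw [vadd_eq_add, add_comm]⟩
  rw [h, measure_vadd]

theorem coe_sum {T : Type*} (R : Finset T) (A : T → ConvexBody G) :
    ((∑ τ ∈ R, A τ : ConvexBody G) : Set G) = ∑ τ ∈ R, (A τ : Set G) := by
  classical
  induction R using Finset.induction_on with
  | empty => simp
  | insert a R ha ih => rw [Finset.sum_insert ha, Finset.sum_insert ha, ConvexBody.coe_add, ih]

/-- continuity of the volume in a simple case -/
theorem tendsto_vl_add_smul (X Y : ConvexBody G) {e : ℕ → ℝ≥0} (he : Tendsto e atTop (𝓝 0)) :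
    Tendsto (fun k => vl μ (X + e k • Y)) atTop (𝓝 (vl μ X)) := by
  obtain ⟨y, hy⟩ := Y.nonempty
  set Z : ConvexBody G := Y + sing (-y) with hZ
  have h0 : (0 : G) ∈ (Z : Set G) := by
    rw [hZ, ConvexBody.coe_add]
    exact Set.mem_add.mpr ⟨y, hy, -y, rfl, by simp⟩
  have hYZ : Y = Z + sing y := by
    apply SetLike.coe_injective
    rw [hZ, ConvexBody.coe_add, ConvexBody.coe_add]
    change (Y : Set G) = (Y : Set G) + {-y} + {y}
    rw [add_assoc, singleton_add_singleton]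
    simp
  have hs : ∀ c : ℝ≥0, vl μ (X + c • Y) = vl μ (X + c • Z) := by
    intro c
    have : X + c • Y = (X + c • Z) + sing (c • y) := by
      rw [hYZ, smul_add, add_assoc]
      congr 2
      apply SetLike.coe_injective
      change c • ({y} : Set G) = {c • y}
      rw [smul_set_singleton]
    rw [this, vl_add_sing]
  simp_rw [hs]
  obtain ⟨R, hR0, hR⟩ : ∃ R : ℝ, 0 < R ∧ ∀ z ∈ (Z : Set G), ‖z‖ ≤ R := by
    obtain ⟨R, hR⟩ := Z.isBounded.exists_norm_le
    exact ⟨max R 1, lt_max_of_lt_right one_pos, fun z hz => (hR z hz).trans (le_max_left _ _)⟩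
  have hfin : ∀ K : ConvexBody G, μ (K : Set G) ≠ ⊤ := fun K => K.isCompact.measure_lt_top.ne
  have hlow : ∀ k, μ (X : Set G) ≤ μ ((X + e k • Z : ConvexBody G) : Set G) := by
    intro k
    refine measure_mono fun x hx => ?_
    rw [ConvexBody.coe_add]
    exact Set.mem_add.mpr ⟨x, hx, 0, ⟨0, h0, by simp⟩, by simp⟩
  have hup : ∀ k, μ ((X + e k • Z : ConvexBody G) : Set G) ≤ μ (Metric.cthickening ((e k : ℝ) * R) (X : Set G)) := by
    intro k
    refine measure_mono fun x hx => ?_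
    rw [ConvexBody.coe_add] at hx
    obtain ⟨a, ha, b, ⟨z, hz, rfl⟩, rfl⟩ := Set.mem_add.mp hx
    refine Metric.mem_cthickening_of_dist_le _ a _ _ ha ?_
    rw [dist_eq_norm, add_sub_cancel_left]
    change ‖(e k : ℝ) • z‖ ≤ _
    rw [norm_smul, Real.norm_of_nonneg (e k).coe_nonneg]
    exact mul_le_mul_of_nonneg_left (hR z hz) (e k).coe_nonneg
  have hth : Tendsto (fun k => μ (Metric.cthickening ((e k : ℝ) * R) (X : Set G))) atTop (𝓝 (μ (X : Set G))) := by
    have h1 : Tendsto (fun k => (e k : ℝ) * R) atTop (𝓝 0) := by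
      have := (NNReal.tendsto_coe.mpr he).mul_const R
      simpa using this
    exact (tendsto_measure_cthickening_of_isCompact X.isCompact).comp h1
  have hlim := tendsto_of_tendsto_of_tendsto_of_le_of_le tendsto_const_nhds hth hlow hup
  exact (ENNReal.tendsto_toReal (hfin X)).comp hlim

end general

variable {ι S T : Type*} [Fintype ι] [Fintype S] [Fintype T] [DecidableEq ι] [DecidableEq T]

/-- the hull of the points with positive weight -/
def hb (ω : S → ℝ) (hω : Adm ω) (p : S → ι → ℝ) : ConvexBody (ι → ℝ) :=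
  ⟨convexHull ℝ (p '' {i | 0 < ω i}), convex_convexHull ℝ _, (Set.toFinite _).isCompact_convexHull ℝ,
    by
      obtain ⟨i, hi⟩ := hω.2
      exact ⟨p i, subset_convexHull ℝ _ ⟨i, hi, rfl⟩⟩⟩

theorem QQ_eq (x : T → ℝ≥0) {ω : T → S → ℝ} (hω : ∀ τ, Adm (ω τ)) (p : T → S → ι → ℝ) :
    QQ (fun τ => (x τ : ℝ)) ω p = ((∑ τ, x τ • hb (ω τ) (hω τ) (p τ) : ConvexBody (ι → ℝ)) : Set (ι → ℝ)) := by
  rw [coe_sum]
  ext q
  rw [Set.mem_fintype_sum]
  constructor
  · rintro ⟨y, hy, rfl⟩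
    exact ⟨fun τ => (x τ : ℝ) • y τ, fun τ => ⟨y τ, hy τ, rfl⟩, rfl⟩
  · rintro ⟨g, hg, rfl⟩
    choose y hy using hg
    exact ⟨y, fun τ => (hy τ).1, Finset.sum_congr rfl fun τ _ => (hy τ).2.symm⟩

theorem fin_QQ (x : T → ℝ≥0) {ω : T → S → ℝ} (hω : ∀ τ, Adm (ω τ)) (p : T → S → ι → ℝ) :
    volume (QQ (fun τ => (x τ : ℝ)) ω p) < ⊤ := by
  rw [QQ_eq x hω]
  exact (ConvexBody.isCompact _).measure_lt_top

theorem vol_QQ_flat (x : T → ℝ) {ω : T → S → ℝ} (hω : ∀ τ, Adm (ω τ)) {p : T → S → ι → ℝ} (h : ¬ NDg ω p) :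
    volume (QQ x ω p) = 0 := by
  unfold NDg at h
  push Not at h
  obtain ⟨η, h1, h2⟩ := h
  choose i0 hi0 using fun τ => (hω τ).2
  have h3 : ∀ τ, ∀ y ∈ convexHull ℝ (p τ '' {i | 0 < ω τ i}), y ⬝ᵥ η = p τ (i0 τ) ⬝ᵥ η := by
    intro τ
    have hc : Convex ℝ {y : ι → ℝ | y ⬝ᵥ η = p τ (i0 τ) ⬝ᵥ η} := by
      intro a ha b hb s t hs ht hst
      simp only [Set.mem_ofPred_eq] at ha hb ⊢
      rw [add_dotProduct, smul_dotProduct, smul_dotProduct, ha, hb, ← add_smul, hst, one_smul]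
    refine fun y hy => convexHull_min (t := {y : ι → ℝ | y ⬝ᵥ η = p τ (i0 τ) ⬝ᵥ η}) ?_ hc hy
    rintro _ ⟨i, hi, rfl⟩
    have := h1 τ i (i0 τ) hi (hi0 τ)
    rw [sub_dotProduct] at this
    simpa using sub_eq_zero.mp this
  let W : Submodule ℝ (ι → ℝ) := LinearMap.ker (dcl η : (ι → ℝ) →L[ℝ] ℝ).toLinearMap
  have hW : W ≠ ⊤ := by
    intro hW
    have h4 : η ∈ W := hW ▸ Submodule.mem_top
    have h5 : η ⬝ᵥ η = 0 := by simpa [W, LinearMap.mem_ker] using h4
    exact h2 (by simpa using h5)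
  let q0 : ι → ℝ := ∑ τ, x τ • p τ (i0 τ)
  have hsub : QQ x ω p ⊆ q0 +ᵥ (W : Set (ι → ℝ)) := by
    rintro _ ⟨y, hy, rfl⟩
    refine Set.mem_vadd_set.mpr ⟨∑ τ, x τ • y τ - q0, ?_, by simp⟩
    change (dcl η) (∑ τ, x τ • y τ - q0) = 0
    rw [dcl_apply, dotProduct_sub, dotProduct_sum, dotProduct_sum, sub_eq_zero]
    refine Finset.sum_congr rfl fun τ _ => ?_
    rw [dotProduct_smul, dotProduct_smul, dotProduct_comm η, dotProduct_comm η, h3 τ _ (hy τ)]
  refine measure_mono_null hsub ?_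
  rw [measure_vadd]
  exact Measure.addHaar_submodule volume W hW

/-- the coefficients -/
def co (ω : T → S → ℝ) (p : T → S → ι → ℝ) (I : ι → T × (S × S)) : ℝ :=
  open Classical in if NDg ω p then (JI ω p I).toReal else 0

theorem co_nonneg (ω : T → S → ℝ) (p : T → S → ι → ℝ) (I : ι → T × (S × S)) : 0 ≤ co ω p I := by
  unfold co
  split_ifs
  · exact ENNReal.toReal_nonneg
  · exact le_rfl

theorem vl_poly {x : T → ℝ≥0} (hx : ∀ τ, 0 < x τ) {ω : T → S → ℝ} (hω : ∀ τ, Adm (ω τ)) (p : T → S → ι → ℝ) :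
    ((Fintype.card ι).factorial : ℝ) * vl volume (∑ τ, x τ • hb (ω τ) (hω τ) (p τ)) =
      ∑ I : ι → T × (S × S), (∏ a, (x (I a).1 : ℝ)) * co ω p I := by
  unfold vl
  rw [← QQ_eq x hω]
  by_cases h : NDg ω p
  · have h1 := expand_real (x := fun τ => (x τ : ℝ)) (fun τ => hx τ) hω h
      (by simpa using fin_QQ (fun _ => (1 : ℝ≥0)) hω p)
    rw [← h1]
    refine Finset.sum_congr rfl fun I _ => ?_
    unfold co
    rw [if_pos h]
  · rw [vol_QQ_flat _ hω h]
    simp [co, h]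

theorem smul_split {G : Type*} [NormedAddCommGroup G] [NormedSpace ℝ G] (A : T → ConvexBody G) (R : Finset T)
    (ε : ℝ≥0) : ∑ τ, (ε + if τ ∈ R then 1 else 0) • A τ = ∑ τ ∈ R, A τ + ε • ∑ τ, A τ := by
  simp_rw [add_smul, Finset.sum_add_distrib, ← Finset.smul_sum]
  rw [add_comm]
  congr 1
  rw [← Finset.sum_filter_add_sum_filter_not Finset.univ (fun τ => τ ∈ R)]
  have h1 : ∑ τ ∈ Finset.univ.filter (fun τ => ¬ τ ∈ R), (if τ ∈ R then (1 : ℝ≥0) else 0) • A τ = 0 := by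
    refine Finset.sum_eq_zero fun τ hτ => ?_
    rw [if_neg (Finset.mem_filter.mp hτ).2, zero_smul]
  rw [h1, add_zero]
  have h2 : Finset.univ.filter (fun τ => τ ∈ R) = R := by ext; simp
  rw [h2]
  refine Finset.sum_congr rfl fun τ hτ => ?_
  rw [if_pos hτ, one_smul]

/-- the alternating sum is the limit of the perturbed one, which is constant -/
theorem dl_poly {ω : T → S → ℝ} (hω : ∀ τ, Adm (ω τ)) (p : T → S → ι → ℝ) (C : ℝ)
    (hC : ∀ ε : ℝ, ∑ I : ι → T × (S × S), (∑ R ∈ (Finset.univ : Finset T).powerset,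
      (-1 : ℝ) ^ (Fintype.card T - R.card) * ∏ a, (ε + if (I a).1 ∈ R then 1 else 0)) * co ω p I = C) :
    ((Fintype.card ι).factorial : ℝ) * dl (vl volume) (Finset.univ.val.map fun τ => hb (ω τ) (hω τ) (p τ)) = C := by
  set A : T → ConvexBody (ι → ℝ) := fun τ => hb (ω τ) (hω τ) (p τ) with hA
  rw [dl_finset, Finset.card_univ]
  let e : ℕ → ℝ≥0 := fun k => 1 / ((k : ℝ≥0) + 1)
  have hepos : ∀ k, 0 < e k := fun k => by positivity
  have he0 : Tendsto e atTop (𝓝 0) := by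
    rw [← NNReal.tendsto_coe]
    simpa [e] using (tendsto_one_div_add_atTop_nhds_zero_nat (𝕜 := ℝ))
  have h1 : ∀ k, ((Fintype.card ι).factorial : ℝ) * ∑ R ∈ (Finset.univ : Finset T).powerset,
      (-1 : ℝ) ^ (Fintype.card T - R.card) * vl volume (∑ τ ∈ R, A τ + e k • ∑ τ, A τ) = C := by
    intro k
    rw [← hC (e k)]
    simp_rw [Finset.sum_mul]
    rw [Finset.sum_comm, Finset.mul_sum]
    refine Finset.sum_congr rfl fun R _ => ?_
    rw [← smul_split]
    have h2 := vl_poly (x := fun τ => e k + if τ ∈ R then 1 else 0)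
      (fun τ => add_pos_of_pos_of_nonneg (hepos k) (by split_ifs <;> simp)) hω p
    calc ((Fintype.card ι).factorial : ℝ) * ((-1 : ℝ) ^ (Fintype.card T - R.card) *
          vl volume (∑ τ, (e k + if τ ∈ R then 1 else 0) • A τ))
        = (-1 : ℝ) ^ (Fintype.card T - R.card) * (((Fintype.card ι).factorial : ℝ) *
          vl volume (∑ τ, (e k + if τ ∈ R then 1 else 0) • A τ)) := by ring
      _ = _ := by
        rw [h2, Finset.mul_sum]
        refine Finset.sum_congr rfl fun I _ => ?_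
        rw [← mul_assoc]
        congr 2
        refine Finset.prod_congr rfl fun a _ => ?_
        push_cast
        congr 1
        split_ifs <;> simp
  have h3 : Tendsto (fun k => ((Fintype.card ι).factorial : ℝ) * ∑ R ∈ (Finset.univ : Finset T).powerset,
      (-1 : ℝ) ^ (Fintype.card T - R.card) * vl volume (∑ τ ∈ R, A τ + e k • ∑ τ, A τ)) atTop
      (𝓝 (((Fintype.card ι).factorial : ℝ) * ∑ R ∈ (Finset.univ : Finset T).powerset,
      (-1 : ℝ) ^ (Fintype.card T - R.card) * vl volume (∑ τ ∈ R, A τ))) :=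
    (tendsto_finsetSum _ fun R _ => (tendsto_vl_add_smul volume _ _ he0).const_mul _).const_mul _
  simp_rw [h1] at h3
  exact (tendsto_nhds_unique h3 tendsto_const_nhds)

theorem dl_poly_zero {ω : T → S → ℝ} (hω : ∀ τ, Adm (ω τ)) (p : T → S → ι → ℝ)
    (hT : Fintype.card ι < Fintype.card T) :
    dl (vl volume) (Finset.univ.val.map fun τ => hb (ω τ) (hω τ) (p τ)) = 0 := by
  have h := dl_poly hω p 0 (by
    intro ε
    refine Finset.sum_eq_zero fun I _ => ?_
    rw [alt_zero (fun a => (I a).1) ε, zero_mul]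
    intro hs
    exact absurd (Fintype.card_le_of_surjective _ hs) (by omega))
  have h0 : ((Fintype.card ι).factorial : ℝ) ≠ 0 := by positivity
  exact (mul_eq_zero.mp h).resolve_left h0

theorem dl_poly_eq {ω : T → S → ℝ} (hω : ∀ τ, Adm (ω τ)) (p : T → S → ι → ℝ)
    (hT : Fintype.card ι = Fintype.card T) :
    ((Fintype.card ι).factorial : ℝ) * dl (vl volume) (Finset.univ.val.map fun τ => hb (ω τ) (hω τ) (p τ)) =
      ∑ I ∈ (Finset.univ.filter fun I : ι → T × (S × S) => Function.Bijective fun a => (I a).1), co ω p I := by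
  refine dl_poly hω p _ (by
    intro ε
    rw [Finset.sum_filter]
    refine Finset.sum_congr rfl fun I _ => ?_
    split_ifs with hb
    · rw [alt_one (fun a => (I a).1) ε hb, one_mul]
    · rw [alt_zero (fun a => (I a).1) ε, zero_mul]
      intro hs
      exact hb ((Fintype.bijective_iff_surjective_and_card _).mpr ⟨hs, hT⟩))

theorem dl_poly_mono {ω₀ ω₁ : T → S → ℝ} (h0 : ∀ τ, Adm (ω₀ τ)) (h1 : ∀ τ, Adm (ω₁ τ))
    (hle : ∀ τ i, 0 < ω₀ τ i → 0 < ω₁ τ i) (p : T → S → ι → ℝ) (hT : Fintype.card ι = Fintype.card T) :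
    dl (vl volume) (Finset.univ.val.map fun τ => hb (ω₀ τ) (h0 τ) (p τ)) ≤
      dl (vl volume) (Finset.univ.val.map fun τ => hb (ω₁ τ) (h1 τ) (p τ)) := by
  have hN : (0 : ℝ) < ((Fintype.card ι).factorial : ℝ) := by positivity
  refine le_of_mul_le_mul_left ?_ hN
  rw [dl_poly_eq h0 p hT]
  by_cases hnd : NDg ω₀ p
  swap
  · rw [dl_poly_eq h1 p hT]
    refine le_trans (le_of_eq (Finset.sum_eq_zero fun I _ => ?_)) (Finset.sum_nonneg fun I _ => co_nonneg _ _ _)
    simp [co, hnd]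
  set A := Finset.univ.filter fun I : ι → T × (S × S) => Function.Bijective fun a => (I a).1 with hA
  let ω : ℝ → T → S → ℝ := fun ε τ i => ω₀ τ i + ε * ω₁ τ i
  have hωadm : ∀ ε : ℝ, 0 ≤ ε → ∀ τ, Adm (ω ε τ) := by
    intro ε hε τ
    refine ⟨fun i => add_nonneg ((h0 τ).1 i) (mul_nonneg hε ((h1 τ).1 i)), ?_⟩
    obtain ⟨i, hi⟩ := (h0 τ).2
    exact ⟨i, add_pos_of_pos_of_nonneg hi (mul_nonneg hε ((h1 τ).1 i))⟩
  have hω0 : ω 0 = ω₀ := by funext τ i; simp [ω]
  have hsupp : ∀ ε : ℝ, 0 < ε → ∀ τ i, 0 < ω ε τ i ↔ 0 < ω₁ τ i := by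
    intro ε hε τ i
    constructor
    · intro h
      by_contra hcon
      have e1 : ω₁ τ i = 0 := le_antisymm (not_lt.mp hcon) ((h1 τ).1 i)
      have e0 : ω₀ τ i = 0 := le_antisymm (not_lt.mp fun h => hcon (hle τ i h)) ((h0 τ).1 i)
      simp [ω, e0, e1] at h
    · intro h
      exact add_pos_of_nonneg_of_pos ((h0 τ).1 i) (mul_pos hε h)
  have hndε : ∀ ε : ℝ, 0 ≤ ε → NDg (ω ε) p := by
    intro ε hε η hη
    refine hnd η fun τ i j hi hj => hη τ i j ?_ ?_
    · exact add_pos_of_pos_of_nonneg hi (mul_nonneg hε ((h1 τ).1 i))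
    · exact add_pos_of_pos_of_nonneg hj (mul_nonneg hε ((h1 τ).1 j))
  have hfin : ∀ ε : ℝ, 0 ≤ ε → ∀ I, JI (ω ε) p I < ⊤ := fun ε hε I =>
    JI_lt_top (hωadm ε hε) (hndε ε hε) (by simpa using fin_QQ (fun _ => (1 : ℝ≥0)) (hωadm ε hε) p) I
  let Ft : ℝ → (ι → ℝ) → ENNReal := fun ε ξ => ∑ I ∈ A, ENNReal.ofReal (fI (ω ε) p I ξ)
  have hmeas : ∀ ε : ℝ, 0 ≤ ε → ∀ I ∈ A, Measurable fun ξ => ENNReal.ofReal (fI (ω ε) p I ξ) :=
    fun ε hε I _ => (continuous_fI (hωadm ε hε) p I).measurable.ennreal_ofReal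
  have hint : ∀ ε : ℝ, 0 ≤ ε → ∫⁻ ξ, Ft ε ξ = ENNReal.ofReal (∑ I ∈ A, co (ω ε) p I) := by
    intro ε hε
    rw [ENNReal.ofReal_sum_of_nonneg fun _ _ => co_nonneg _ _ _]
    rw [show ∫⁻ ξ, Ft ε ξ = ∑ I ∈ A, JI (ω ε) p I from lintegral_finsetSum _ (hmeas ε hε)]
    refine Finset.sum_congr rfl fun I _ => ?_
    unfold co
    rw [if_pos (hndε ε hε), ENNReal.ofReal_toReal (hfin ε hε I).ne]
  let e : ℕ → ℝ := fun k => 1 / ((k : ℝ) + 1)
  have hepos : ∀ k, 0 < e k := fun k => by positivity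
  have he0 : Tendsto e atTop (𝓝 0) := tendsto_one_div_add_atTop_nhds_zero_nat
  have hfatou := lintegral_liminf_le (μ := (volume : Measure (ι → ℝ))) (f := fun (k : ℕ) => Ft (e k))
    (fun k => Finset.measurable_fun_sum _ (hmeas _ (hepos k).le)) (u := atTop)
  have hmu : ∀ τ (i : S) (ξ : ι → ℝ),
      Tendsto (fun ε : ℝ => mu (ω ε τ) (p τ) i ξ) (𝓝 0) (𝓝 (mu (ω 0 τ) (p τ) i ξ)) := by
    intro τ i ξ
    have hom : ∀ i, Continuous fun ε : ℝ => ω ε τ i := fun i => by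
      simp only [ω]; fun_prop
    have hZ : Continuous fun ε : ℝ => Zf (ω ε τ) (p τ) ξ := by
      unfold Zf
      exact continuous_finsetSum _ fun r _ => (hom r).mul continuous_const
    have hne : Zf (ω 0 τ) (p τ) ξ ≠ 0 := (Zf_pos (hωadm 0 le_rfl τ) (p τ) ξ).ne'
    have hcont : ContinuousAt (fun ε : ℝ => mu (ω ε τ) (p τ) i ξ) 0 := by
      unfold mu
      exact ((hom i).mul continuous_const).continuousAt.div hZ.continuousAt hne
    exact hcont
  have hfI : ∀ I (ξ : ι → ℝ), Tendsto (fun ε : ℝ => fI (ω ε) p I ξ) (𝓝 0) (𝓝 (fI (ω 0) p I ξ)) := by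
    intro I ξ
    unfold fI
    refine Tendsto.mul_const _ (tendsto_finsetProd _ fun a _ => ?_)
    exact ((hmu _ _ ξ).mul (hmu _ _ ξ)).div_const 2
  have hlim : ∀ ξ, liminf (fun k => Ft (e k) ξ) atTop = Ft 0 ξ := by
    intro ξ
    have h1 : Tendsto (fun k => Ft (e k) ξ) atTop (𝓝 (Ft 0 ξ)) :=
      tendsto_finsetSum _ fun I _ => ENNReal.tendsto_ofReal ((hfI I ξ).comp he0)
    exact h1.liminf_eq
  simp_rw [hlim] at hfatou
  rw [hint 0 le_rfl] at hfatou
  set D : ℝ := ((Fintype.card ι).factorial : ℝ) *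
    dl (vl volume) (Finset.univ.val.map fun τ => hb (ω₁ τ) (h1 τ) (p τ)) with hD
  have hconst : ∀ k, ∫⁻ ξ, Ft (e k) ξ = ENNReal.ofReal D := by
    intro k
    rw [hint _ (hepos k).le, ← dl_poly_eq (hωadm _ (hepos k).le) p hT, hD]
    congr 3
    refine Multiset.map_congr rfl fun τ _ => ?_
    apply SetLike.coe_injective
    change convexHull ℝ _ = convexHull ℝ _
    congr 2
    ext i
    exact hsupp _ (hepos k) τ i
  simp_rw [hconst] at hfatou
  rw [liminf_const, hω0] at hfatou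
  have hD0 : 0 ≤ D := by
    rw [hD, dl_poly_eq h1 p hT]
    exact Finset.sum_nonneg fun I _ => co_nonneg _ _ _
  exact (ENNReal.ofReal_le_ofReal_iff hD0).mp hfatou

end Pool.Agent.TH650.MV
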