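import Mathlib
import Pool.Agent.TH650.MV.Poly
import Pool.Agent.TH89.MV.Approx

/-! # Iterated differences of the volume for convex bodies -/

set_option autoImplicit false
set_option linter.unusedSectionVars false

open MeasureTheory Set Filter Topology Module
open scoped Pointwise NNReal

noncomputable section

namespace Pool.Agent.TH650.MV

open Pool.Agent.TH650.GB Pool.Agent.TH89.MV

section poly
variable {ι T : Type*} [Fintype ι] [Fintype T] [DecidableEq ι] [DecidableEq T]

/-- weights of a finite subset -/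
def wt (W u : Finset (ι → ℝ)) : W → ℝ := open Classical in fun s => if (s : ι → ℝ) ∈ u then 1 else 0

theorem wt_pos (W u : Finset (ι → ℝ)) (s : W) : 0 < wt W u s ↔ (s : ι → ℝ) ∈ u := by
  unfold wt
  split_ifs with h <;> simp [h]

theorem wt_adm {W u : Finset (ι → ℝ)} (huW : u ⊆ W) (hu : u.Nonempty) : Adm (wt W u) := by
  constructor
  · intro s
    unfold wt
    split_ifs <;> simp
  · obtain ⟨x, hx⟩ := hu
    exact ⟨⟨x, huW hx⟩, (wt_pos _ _ _).mpr hx⟩

theorem hb_wt {W u : Finset (ι → ℝ)} (huW : u ⊆ W) (hu : u.Nonempty) :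
    hb (wt W u) (wt_adm huW hu) (fun s => (s : ι → ℝ)) = fh u hu := by
  apply SetLike.coe_injective
  change convexHull ℝ _ = convexHull ℝ _
  congr 1
  ext x
  constructor
  · rintro ⟨s, hs, rfl⟩
    exact (wt_pos _ _ _).mp hs
  · intro hx
    exact ⟨⟨x, huW hx⟩, (wt_pos _ _ _).mpr hx, rfl⟩

theorem key_poly (u : T → Finset (ι → ℝ)) (hu : ∀ τ, (u τ).Nonempty) (hT : Fintype.card ι < Fintype.card T) :
    dl (vl volume) (Finset.univ.val.map fun τ => fh (u τ) (hu τ)) = 0 := by
  classical
  have hW : ∀ τ, u τ ⊆ Finset.univ.biUnion u := fun τ => Finset.subset_biUnion_of_mem u (Finset.mem_univ τ)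
  have h := dl_poly_zero (fun τ => wt_adm (hW τ) (hu τ))
    (fun (_ : T) (s : (Finset.univ.biUnion u : Finset (ι → ℝ))) => (s : ι → ℝ)) hT
  rwa [Multiset.map_congr rfl fun τ _ => hb_wt (hW τ) (hu τ)] at h

theorem mono_poly (u w : T → Finset (ι → ℝ)) (hu : ∀ τ, (u τ).Nonempty) (hw : ∀ τ, (w τ).Nonempty)
    (huw : ∀ τ, u τ ⊆ w τ) (hT : Fintype.card ι = Fintype.card T) :
    dl (vl volume) (Finset.univ.val.map fun τ => fh (u τ) (hu τ)) ≤
      dl (vl volume) (Finset.univ.val.map fun τ => fh (w τ) (hw τ)) := by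
  classical
  have hW : ∀ τ, w τ ⊆ Finset.univ.biUnion w := fun τ => Finset.subset_biUnion_of_mem w (Finset.mem_univ τ)
  have h := dl_poly_mono (fun τ => wt_adm ((huw τ).trans (hW τ)) (hu τ)) (fun τ => wt_adm (hW τ) (hw τ))
    (fun τ i hi => (wt_pos _ _ _).mpr (huw τ ((wt_pos _ _ _).mp hi)))
    (fun (_ : T) (s : (Finset.univ.biUnion w : Finset (ι → ℝ))) => (s : ι → ℝ)) hT
  rwa [Multiset.map_congr rfl fun τ _ => hb_wt ((huw τ).trans (hW τ)) (hu τ),
    Multiset.map_congr rfl fun τ _ => hb_wt (hW τ) (hw τ)] at h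

end poly

section gen
variable {G : Type*} [NormedAddCommGroup G] [NormedSpace ℝ G] [FiniteDimensional ℝ G]
  [MeasurableSpace G] [BorelSpace G] (μ : Measure G) [μ.IsAddHaarMeasure]

theorem Approx.sum {T : Type*} (R : Finset T) {a : T → ℕ → ConvexBody G} {A : T → ConvexBody G}
    (h : ∀ τ, Approx (a τ) (A τ)) : Approx (fun m => ∑ τ ∈ R, a τ m) (∑ τ ∈ R, A τ) := by
  classical
  induction R using Finset.induction_on with
  | empty => simpa using Approx.zero
  | insert t R ht ih =>
    simp_rw [Finset.sum_insert ht]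
    exact (h t).add ih

theorem tendsto_dl {T : Type*} [Fintype T] [DecidableEq T] {a : T → ℕ → ConvexBody G} {A : T → ConvexBody G}
    (h : ∀ τ, Approx (a τ) (A τ)) :
    Tendsto (fun m => dl (vl μ) (Finset.univ.val.map fun τ => a τ m)) atTop
      (𝓝 (dl (vl μ) (Finset.univ.val.map A))) := by
  simp_rw [dl_finset]
  exact tendsto_finsetSum _ fun R _ => ((Approx.sum R h).tendsto μ).const_mul _

end gen

section vol
variable {ι T : Type*} [Fintype ι] [Fintype T] [DecidableEq ι] [DecidableEq T]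

theorem key_vol (A : T → ConvexBody (ι → ℝ)) (hT : Fintype.card ι < Fintype.card T) :
    dl (vl volume) (Finset.univ.val.map A) = 0 := by
  choose u w hu hw huw h1 h2 using fun τ => exists_approx (le_refl (A τ))
  refine tendsto_nhds_unique (tendsto_dl volume h1) ?_
  have : ∀ m, dl (vl volume) (Finset.univ.val.map fun τ => fh (u τ m) (hu τ m)) = 0 := fun m =>
    key_poly (fun τ => u τ m) (fun τ => hu τ m) hT
  simp_rw [this]
  exact tendsto_const_nhds

theorem mono_vol (A B : T → ConvexBody (ι → ℝ)) (hAB : ∀ τ, A τ ≤ B τ) (hT : Fintype.card ι = Fintype.card T) :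
    dl (vl volume) (Finset.univ.val.map A) ≤ dl (vl volume) (Finset.univ.val.map B) := by
  choose u w hu hw huw h1 h2 using fun τ => exists_approx (hAB τ)
  exact le_of_tendsto_of_tendsto' (tendsto_dl volume h1) (tendsto_dl volume h2) fun m =>
    mono_poly (fun τ => u τ m) (fun τ => w τ m) (fun τ => hu τ m) (fun τ => hw τ m) (fun τ => huw τ m) hT

end vol

section gen
variable {G : Type*} [NormedAddCommGroup G] [NormedSpace ℝ G]
  {G' : Type*} [NormedAddCommGroup G'] [NormedSpace ℝ G']

theorem img_add' (φ : G →L[ℝ] G') (K L : ConvexBody G) : img φ (K + L) = img φ K + img φ L := by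
  apply SetLike.coe_injective
  change φ '' ((K + L : ConvexBody G) : Set G) = ((img φ K + img φ L : ConvexBody G') : Set G')
  rw [ConvexBody.coe_add, ConvexBody.coe_add]
  exact Set.image_add φ

theorem img_zero' (φ : G →L[ℝ] G') : img φ (0 : ConvexBody G) = 0 := by
  apply SetLike.coe_injective
  change φ '' ((0 : ConvexBody G) : Set G) = ((0 : ConvexBody G') : Set G')
  rw [ConvexBody.coe_zero, ConvexBody.coe_zero, ← Set.singleton_zero, Set.image_singleton, map_zero, Set.singleton_zero]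

theorem dl_comp_img (φ : G →L[ℝ] G') (f : ConvexBody G' → ℝ) (s : Multiset (ConvexBody G)) :
    dl (fun X => f (img φ X)) s = dl f (s.map (img φ)) := by
  induction s using Multiset.induction generalizing f with
  | empty => rw [dl_zero, Multiset.map_zero, dl_zero, img_zero']
  | cons a s ih =>
    rw [dl_cons, Multiset.map_cons, dl_cons, ih f, ← ih (fun Y => f (Y + img φ a))]
    simp_rw [img_add']

theorem dl_const_mul (c : ℝ) (f : ConvexBody G → ℝ) (s : Multiset (ConvexBody G)) :
    dl (fun X => c * f X) s = c * dl f s := by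
  induction s using Multiset.induction generalizing f with
  | empty => rw [dl_zero, dl_zero]
  | cons a s ih => rw [dl_cons, dl_cons, ih f, ih (fun X => f (X + a))]; ring

variable [FiniteDimensional ℝ G] [MeasurableSpace G] [BorelSpace G] (μ : Measure G) [μ.IsAddHaarMeasure]
  [MeasurableSpace G'] [BorelSpace G']

theorem vl_map (μ : Measure G) (φ : G ≃L[ℝ] G') (K : ConvexBody G) :
    vl (μ.map φ) (img (φ : G →L[ℝ] G') K) = vl μ K := by
  unfold vl
  congr 1
  change (μ.map φ) (φ '' (K : Set G)) = _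
  rw [show (μ.map φ) = μ.map φ.toHomeomorph.toMeasurableEquiv from rfl, MeasurableEquiv.map_apply]
  congr 1
  exact Set.preimage_image_eq _ φ.injective

theorem exists_coord : ∃ (φ : G ≃L[ℝ] (Fin (finrank ℝ G) → ℝ)) (c : ℝ), 0 < c ∧
    ∀ s : Multiset (ConvexBody G), dl (vl μ) s =
      c * dl (vl volume) (s.map (img (φ : G →L[ℝ] (Fin (finrank ℝ G) → ℝ)))) := by
  let φ : G ≃L[ℝ] (Fin (finrank ℝ G) → ℝ) := ContinuousLinearEquiv.ofFinrankEq (by simp)
  have h1 : (μ.map φ).IsAddHaarMeasure := φ.isAddHaarMeasure_map μ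
  have hc := Measure.isAddLeftInvariant_eq_smul (μ.map φ) (volume : Measure (Fin (finrank ℝ G) → ℝ))
  have hc0 := Measure.addHaarScalarFactor_pos_of_isAddHaarMeasure (μ.map φ)
    (volume : Measure (Fin (finrank ℝ G) → ℝ))
  refine ⟨φ, _, NNReal.coe_pos.mpr hc0, fun s => ?_⟩
  rw [← dl_comp_img, ← dl_const_mul]
  congr 1
  funext K
  rw [← vl_map μ φ K]
  conv_lhs => rw [hc]
  unfold vl
  rw [Measure.smul_apply]
  rw [ENNReal.toReal_smul]; rfl

/-- **Vanishing of the `(n+1)`-st differences of the volume.** -/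
theorem dl_key (s : Multiset (ConvexBody G)) (hs : finrank ℝ G < Multiset.card s) : dl (vl μ) s = 0 := by
  obtain ⟨φ, c, hc, h⟩ := exists_coord μ
  rw [h]
  obtain ⟨A, hA⟩ := exists_family (Multiset.card s) (s.map (img (φ : G →L[ℝ] (Fin (finrank ℝ G) → ℝ)))) (by simp)
  rw [hA, key_vol A (by simpa using hs), mul_zero]

/-- **Monotonicity.** -/
theorem dl_mono {A B : ConvexBody G} (hAB : A ≤ B) (s : Multiset (ConvexBody G))
    (hs : Multiset.card s + 1 = finrank ℝ G) : dl (vl μ) (A ::ₘ s) ≤ dl (vl μ) (B ::ₘ s) := by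
  obtain ⟨φ, c, hc, h⟩ := exists_coord μ
  rw [h, h]
  refine mul_le_mul_of_nonneg_left ?_ hc.le
  obtain ⟨C, hC⟩ := exists_family (Multiset.card s) (s.map (img (φ : G →L[ℝ] (Fin (finrank ℝ G) → ℝ)))) (by simp)
  have hcons : ∀ X : ConvexBody (Fin (finrank ℝ G) → ℝ),
      X ::ₘ (s.map (img (φ : G →L[ℝ] (Fin (finrank ℝ G) → ℝ)))) =
        Finset.univ.val.map (Fin.cons (α := fun _ => ConvexBody (Fin (finrank ℝ G) → ℝ)) X C) := by
    intro X
    have h1 : (Finset.univ : Finset (Fin (Multiset.card s + 1))).val =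
        0 ::ₘ (Finset.univ : Finset (Fin (Multiset.card s))).val.map Fin.succ := by
      rw [Fin.univ_succ, Finset.cons_val, Finset.map_val]
      rfl
    rw [h1, Multiset.map_cons, Multiset.map_map, hC]
    rfl
  rw [Multiset.map_cons, Multiset.map_cons, hcons, hcons]
  refine mono_vol _ _ (fun τ => ?_) (by simp [hs])
  refine Fin.cases ?_ (fun i => ?_) τ
  · change img _ A ≤ img _ B
    exact SetLike.coe_subset_coe.mp (Set.image_mono (SetLike.coe_subset_coe.mpr hAB))
  · exact le_refl _

end gen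

end Pool.Agent.TH650.MV
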