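import Mathlib
import Pool.Agent.TH650.MV.Key

/-! # Basic properties of mixed volumes -/

set_option autoImplicit false
set_option linter.unusedSectionVars false

open MeasureTheory Set Filter Topology Module Multiset
open scoped Pointwise NNReal

noncomputable section

namespace Pool.Agent.TH650.MV

section
variable {G : Type*} [NormedAddCommGroup G] [NormedSpace ℝ G] [FiniteDimensional ℝ G]
  [MeasurableSpace G] [BorelSpace G] (μ : Measure G) [μ.IsAddHaarMeasure]

theorem V_add (A B : ConvexBody G) (s : Multiset (ConvexBody G)) (hs : card s + 1 = finrank ℝ G) :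
    V μ ((A + B) ::ₘ s) = V μ (A ::ₘ s) + V μ (B ::ₘ s) := by
  unfold V
  rw [card_cons, card_cons, card_cons, ← add_div]
  congr 1
  have h := dl_key μ (A ::ₘ B ::ₘ s) (by rw [card_cons, card_cons]; omega)
  rw [dl_cons, dl_cons, dl_cons] at h
  rw [dl_cons, dl_cons, dl_cons]
  have e : (fun X : ConvexBody G => vl μ (X + (A + B))) = fun X => vl μ (X + B + A) := by
    funext X
    rw [add_comm A B, add_assoc]
  rw [e]
  linarith

theorem V_sing (x : G) (s : Multiset (ConvexBody G)) (hs : card s + 1 = finrank ℝ G) :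
    V μ (sing x ::ₘ s) = 0 := by
  unfold V
  rw [dl_cons]
  simp_rw [vl_add_sing]
  simp

theorem V_mono {A B : ConvexBody G} (h : A ≤ B) (s : Multiset (ConvexBody G)) (hs : card s + 1 = finrank ℝ G) :
    V μ (A ::ₘ s) ≤ V μ (B ::ₘ s) := by
  unfold V
  rw [card_cons, card_cons]
  exact div_le_div_of_nonneg_right (dl_mono μ h s hs) (by positivity)

theorem V_nonneg (s : Multiset (ConvexBody G)) (hs : card s = finrank ℝ G) : 0 ≤ V μ s := by
  rcases Multiset.empty_or_exists_mem s with h | ⟨a, ha⟩
  · subst h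
    unfold V
    rw [dl_zero]
    exact div_nonneg ENNReal.toReal_nonneg (by positivity)
  · obtain ⟨t, rfl⟩ := Multiset.exists_cons_of_mem ha
    obtain ⟨x, hx⟩ := a.nonempty
    have ht : card t + 1 = finrank ℝ G := by simpa using hs
    rw [← V_sing μ x t ht]
    exact V_mono μ (SetLike.coe_subset_coe.mp (by
      change ({x} : Set G) ⊆ (a : Set G)
      exact Set.singleton_subset_iff.mpr hx)) t ht

theorem V_mono_rel {s t : Multiset (ConvexBody G)} (h : Multiset.Rel (· ≤ ·) s t) (hs : card s = finrank ℝ G) :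
    V μ s ≤ V μ t := by
  have key : ∀ (u : Multiset (ConvexBody G)), card s + card u = finrank ℝ G → V μ (s + u) ≤ V μ (t + u) := by
    clear hs
    induction h with
    | zero => intro u _; exact le_rfl
    | @cons a b as bs hab hr ih =>
      intro u hu
      have hc : card as = card bs := Multiset.card_eq_card_of_rel hr
      have h1 : V μ (a ::ₘ as + u) ≤ V μ (b ::ₘ as + u) := by
        rw [cons_add, cons_add]
        exact V_mono μ hab (as + u) (by rw [card_add]; rw [card_cons] at hu; omega)
      refine h1.trans ?_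
      have h2 := ih (b ::ₘ u) (by rw [card_cons] at hu ⊢; omega)
      rwa [cons_add, cons_add, ← add_cons, ← add_cons]
  simpa using key 0 (by simpa using hs)

theorem V_mono_replicate {A B : ConvexBody G} (h : A ≤ B) (k : ℕ) (s : Multiset (ConvexBody G))
    (hs : card s + k = finrank ℝ G) : V μ (replicate k A + s) ≤ V μ (replicate k B + s) := by
  refine V_mono_rel μ ?_ (by rw [card_add, card_replicate]; omega)
  refine Multiset.Rel.add ?_ (Multiset.rel_refl_of_refl_on fun _ _ => le_rfl)
  induction k with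
  | zero => exact Multiset.Rel.zero
  | succ k ih =>
    rw [replicate_succ, replicate_succ]
    refine Multiset.Rel.cons h ?_
    clear ih hs
    induction k with
    | zero => exact Multiset.Rel.zero
    | succ k ih => rw [replicate_succ, replicate_succ]; exact Multiset.Rel.cons h ih

/-- an additive nonnegative function on `ℝ≥0` is linear -/
theorem add_nonneg_linear (g : ℝ≥0 → ℝ) (hadd : ∀ c d, g (c + d) = g c + g d) (h0 : ∀ c, 0 ≤ g c) (c : ℝ≥0) :
    g c = c * g 1 := by
  have hz : g 0 = 0 := by have := hadd 0 0; simpa using this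
  have hn : ∀ (n : ℕ) (c : ℝ≥0), g (n * c) = n * g c := by
    intro n c
    induction n with
    | zero => simp [hz]
    | succ n ih => push_cast; rw [add_mul, one_mul, hadd, ih]; ring
  have hmono : ∀ c d, c ≤ d → g c ≤ g d := by
    intro c d hcd
    obtain ⟨e, rfl⟩ := exists_add_of_le hcd
    rw [hadd]
    linarith [h0 e]
  have hb : ∀ k : ℕ, |(k : ℝ) * (g c - c * g 1)| ≤ g 1 := by
    intro k
    set m := ⌊(k : ℝ≥0) * c⌋₊ with hm
    have h1 : (m : ℝ≥0) ≤ k * c := Nat.floor_le zero_le
    have h2 : (k : ℝ≥0) * c ≤ m + 1 := (Nat.lt_floor_add_one _).le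
    have e1 := hmono _ _ h1
    have e2 := hmono _ _ h2
    rw [hn] at e1 e2
    have e3 : g (m : ℝ≥0) = m * g 1 := by have := hn m 1; simpa using this
    have e4 : g ((m : ℝ≥0) + 1) = (m + 1) * g 1 := by rw [hadd, e3]; ring
    rw [e3] at e1
    rw [e4] at e2
    have h1' : (m : ℝ) ≤ k * c := by exact_mod_cast h1
    have h2' : (k : ℝ) * c ≤ m + 1 := by exact_mod_cast h2
    have hg := h0 1
    rw [abs_le]
    constructor <;> nlinarith
  by_contra hne
  have hpos : 0 < |g c - c * g 1| := abs_pos.mpr (sub_ne_zero.mpr hne)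
  obtain ⟨k, hk⟩ := exists_nat_gt (g 1 / |g c - c * g 1|)
  have := hb k
  rw [abs_mul, Nat.abs_cast] at this
  rw [div_lt_iff₀ hpos] at hk
  linarith

theorem V_smul (c : ℝ≥0) (A : ConvexBody G) (s : Multiset (ConvexBody G)) (hs : card s + 1 = finrank ℝ G) :
    V μ ((c • A) ::ₘ s) = c * V μ (A ::ₘ s) := by
  have h := add_nonneg_linear (fun c : ℝ≥0 => V μ ((c • A) ::ₘ s))
    (fun c d => by simp only [add_smul]; exact V_add μ _ _ s hs)
    (fun c => V_nonneg μ _ (by rw [card_cons]; exact hs)) c
  simpa using h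

theorem V_binom (A B : ConvexBody G) (k : ℕ) (s : Multiset (ConvexBody G)) (hs : card s + k = finrank ℝ G) :
    V μ (replicate k (A + B) + s) =
      ∑ i ∈ Finset.range (k + 1), (k.choose i : ℝ) * V μ (replicate i A + replicate (k - i) B + s) := by
  induction k generalizing s with
  | zero => simp
  | succ k ih =>
    have h1 : replicate (k + 1) (A + B) + s = (A + B) ::ₘ (replicate k (A + B) + s) := by
      rw [replicate_succ, cons_add]
    rw [h1, V_add μ A B _ (by rw [card_add, card_replicate]; omega), ← add_cons, ← add_cons,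
      ih (A ::ₘ s) (by rw [card_cons]; omega), ih (B ::ₘ s) (by rw [card_cons]; omega)]
    have hA : ∀ i, replicate i A + replicate (k - i) B + A ::ₘ s = replicate (i + 1) A + replicate (k - i) B + s := by
      intro i
      rw [add_cons, replicate_succ, cons_add, cons_add]
    have hB : ∀ i ∈ Finset.range (k + 1), replicate i A + replicate (k - i) B + B ::ₘ s =
        replicate i A + replicate (k + 1 - i) B + s := by
      intro i hi
      rw [add_cons, show k + 1 - i = (k - i) + 1 by have := Finset.mem_range.mp hi; omega, replicate_succ,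
        add_cons, cons_add]
    simp_rw [hA]
    have hB' : ∑ i ∈ Finset.range (k + 1), (k.choose i : ℝ) * V μ (replicate i A + replicate (k - i) B + B ::ₘ s) =
        ∑ i ∈ Finset.range (k + 1), (k.choose i : ℝ) * V μ (replicate i A + replicate (k + 1 - i) B + s) :=
      Finset.sum_congr rfl fun i hi => by rw [hB i hi]
    rw [hB']
    -- Pascal
    set F : ℕ → ℝ := fun i => V μ (replicate i A + replicate (k + 1 - i) B + s) with hF
    have hA2 : ∀ i, V μ (replicate (i + 1) A + replicate (k - i) B + s) = F (i + 1) := by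
      intro i; simp only [hF, Nat.add_sub_add_right]
    simp_rw [hA2]
    change ∑ i ∈ Finset.range (k + 1), (k.choose i : ℝ) * F (i + 1) + ∑ i ∈ Finset.range (k + 1), (k.choose i : ℝ) * F i =
      ∑ i ∈ Finset.range (k + 1 + 1), ((k + 1).choose i : ℝ) * F i
    rw [Finset.sum_range_succ' (fun i => ((k + 1).choose i : ℝ) * F i)]
    simp only [Nat.choose_succ_succ, Nat.cast_add, add_mul, Finset.sum_add_distrib, Nat.choose_zero_right, Nat.cast_one,
      one_mul]
    have h3 : ∑ i ∈ Finset.range (k + 1), (k.choose i : ℝ) * F i =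
        ∑ i ∈ Finset.range (k + 1), (k.choose (i + 1) : ℝ) * F (i + 1) + F 0 := by
      have := Finset.sum_range_succ' (fun i => (k.choose i : ℝ) * F i) (k + 1)
      rw [Finset.sum_range_succ] at this
      simpa using this
    rw [h3]
    ring

theorem vl_nsmul (K : ConvexBody G) (j : ℕ) : vl μ ((j : ℝ≥0) • K) = (j : ℝ) ^ (finrank ℝ G) * vl μ K := by
  unfold vl
  rw [ConvexBody.coe_smul']
  change (μ ((j : ℝ) • (K : Set G))).toReal = _
  rw [Measure.addHaar_smul, ENNReal.toReal_mul, ENNReal.toReal_ofReal (abs_nonneg _), abs_of_nonneg (by positivity)]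

theorem alt_card (n : ℕ) : ∑ R ∈ (Finset.univ : Finset (Fin n)).powerset, (-1 : ℝ) ^ (n - R.card) * (R.card : ℝ) ^ n =
    (n.factorial : ℝ) := by
  rw [Finset.sum_powerset_apply_card (fun k => (-1 : ℝ) ^ (n - k) * (k : ℝ) ^ n), Finset.card_univ, Fintype.card_fin]
  have h := congrFun (fwdDiff_iter_eq_factorial (R := ℝ) (n := n)) 0
  rw [fwdDiff_iter_eq_sum_shift] at h
  simp only [Pi.natCast_apply] at h
  rw [← h]
  refine Finset.sum_congr rfl fun k _ => ?_
  simp [nsmul_eq_mul, zsmul_eq_mul]
  ring

theorem V_self (K : ConvexBody G) : V μ (replicate (finrank ℝ G) K) = vl μ K := by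
  unfold V
  have h1 : replicate (finrank ℝ G) K = (Finset.univ : Finset (Fin (finrank ℝ G))).val.map fun _ => K := by
    simp
  rw [card_replicate, h1, dl_finset, Finset.card_univ, Fintype.card_fin]
  have h2 : ∀ R ∈ (Finset.univ : Finset (Fin (finrank ℝ G))).powerset,
      (-1 : ℝ) ^ (finrank ℝ G - R.card) * vl μ (∑ _τ ∈ R, K) =
        ((-1 : ℝ) ^ (finrank ℝ G - R.card) * (R.card : ℝ) ^ (finrank ℝ G)) * vl μ K := by
    intro R _
    rw [Finset.sum_const, ← Nat.cast_smul_eq_nsmul ℝ≥0, vl_nsmul]
    ring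
  rw [Finset.sum_congr rfl h2, ← Finset.sum_mul, alt_card]
  field_simp

theorem V_smul_replicate (c : ℝ≥0) (A : ConvexBody G) (k : ℕ) (s : Multiset (ConvexBody G))
    (hs : card s + k = finrank ℝ G) : V μ (replicate k (c • A) + s) = c ^ k * V μ (replicate k A + s) := by
  induction k generalizing s with
  | zero => simp
  | succ k ih =>
    rw [replicate_succ, cons_add, V_smul μ c A _ (by rw [card_add, card_replicate]; omega), ← add_cons,
      ih (A ::ₘ s) (by rw [card_cons]; omega), add_cons, replicate_succ, cons_add]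
    ring

theorem V_sing_add (x : G) (A : ConvexBody G) (s : Multiset (ConvexBody G)) (hs : card s + 1 = finrank ℝ G) :
    V μ ((A + sing x) ::ₘ s) = V μ (A ::ₘ s) := by
  rw [V_add μ A (sing x) s hs, V_sing μ x s hs, add_zero]

theorem vl_add_smul (A B : ConvexBody G) (c : ℝ≥0) :
    vl μ (A + c • B) = ∑ i ∈ Finset.range (finrank ℝ G + 1), ((finrank ℝ G).choose i : ℝ) * c ^ i *
      V μ (replicate i B + replicate (finrank ℝ G - i) A) := by
  rw [← V_self, add_comm A]
  have h := V_binom μ (c • B) A (finrank ℝ G) 0 (by simp)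
  simp only [add_zero] at h
  rw [h]
  refine Finset.sum_congr rfl fun i hi => ?_
  rw [V_smul_replicate μ c B i _ (by rw [card_replicate]; have := Finset.mem_range.mp hi; omega), mul_assoc]

theorem V_measure_smul (c : ℝ≥0) (s : Multiset (ConvexBody G)) : V (c • μ) s = c * V μ s := by
  unfold V
  have h : vl (c • μ) = fun K : ConvexBody G => (c : ℝ) * vl μ K := by
    funext K
    unfold vl
    rw [Measure.smul_apply, ENNReal.toReal_smul]
    rfl
  rw [h, dl_const_mul, mul_div_assoc]

theorem V_equiv {G' : Type*} [NormedAddCommGroup G'] [NormedSpace ℝ G']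
    [MeasurableSpace G'] [BorelSpace G'] (φ : G ≃L[ℝ] G') (s : Multiset (ConvexBody G)) :
    V (μ.map φ) (s.map (img (φ : G →L[ℝ] G'))) = V μ s := by
  unfold V
  rw [card_map, ← dl_comp_img]
  congr 2
  funext K
  exact vl_map μ φ K

end

end Pool.Agent.TH650.MV
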